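import Pool.Agent.Helper14.UnavUpper

/-!
Final assembly of constants for S10277: the combinatorial lower bound (hypothesis `hlow`)
and the upper bound `Helper14.Unav.upper` give the frozen statement.
-/

namespace Helper14.Unav

open Finset

theorem eventually_le_choose (q : ℕ) (ε : ℝ) (hε : 0 < ε) :
    ∃ N : ℕ, ∀ n e : ℕ, N ≤ n → (e : ℝ) ≤ (n : ℝ) ^ ((q : ℝ) + 1 - ε) →
      e ≤ n.choose (q + 1) := by
  set F : ℝ := ((q + 1).factorial : ℝ) with hF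
  have hF1 : (1 : ℝ) ≤ F := by rw [hF]; exact_mod_cast Nat.factorial_pos _
  obtain ⟨N1, hN1⟩ := eventually_large (2 ^ (q + 1) * F) ε hε
  refine ⟨N1 + 2 * (q + 1), fun n e hn hup => ?_⟩
  have hnpos : 0 < n := by omega
  have hn0 : (0 : ℝ) < n := by exact_mod_cast hnpos
  have K1 := hN1 n (by omega)
  have h1 := half_pow_le_choose n (q + 1) (by omega)
  rw [div_pow, div_le_iff₀ (by positivity)] at h1
  have h2 : (n : ℝ) ^ (q + 1) ≤ 2 ^ (q + 1) * F * (n.choose (q + 1) : ℝ) := by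
    calc (n : ℝ) ^ (q + 1) ≤ F * (n.choose (q + 1) : ℝ) * 2 ^ (q + 1) := h1
      _ = _ := by ring
  have h3 : (n : ℝ) ^ ε * e ≤ (n : ℝ) ^ (q + 1) := by
    calc (n : ℝ) ^ ε * e ≤ (n : ℝ) ^ ε * (n : ℝ) ^ ((q : ℝ) + 1 - ε) := by gcongr
      _ = (n : ℝ) ^ (((q + 1 : ℕ) : ℝ)) := by
          rw [← Real.rpow_add hn0]
          congr 1
          push_cast
          ring
      _ = (n : ℝ) ^ (q + 1) := Real.rpow_natCast _ _
  have h4 : (n : ℝ) ^ ε * e ≤ (n : ℝ) ^ ε * (n.choose (q + 1) : ℝ) := by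
    refine h3.trans (h2.trans ?_)
    gcongr
  have h5 : (e : ℝ) ≤ (n.choose (q + 1) : ℝ) := le_of_mul_le_mul_left h4 (by positivity)
  exact_mod_cast h5

/-- Choice of the parameters of the star. -/
theorem exists_params (q : ℕ) (hq : 1 ≤ q) (R : ℕ) (hR : 1 ≤ R) (n e : ℕ) (hn : 1 ≤ n)
    (hlow : (R : ℝ) * (n : ℝ) ^ q ≤ e) (hup : e ≤ n ^ (q + 1)) :
    ∃ k d : ℕ, 1 ≤ k ∧ 1 ≤ d ∧ R * (k * n ^ q) ≤ e ∧ d ^ q * e ≤ n ^ (q + 1) ∧
      R * (k ^ 2 * d ^ (q - 1)) ^ (q + 1) ≤ e ∧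
      1 / ((R : ℝ) ^ 2 * 2 ^ (q + 1)) *
        min ((e : ℝ) ^ (1 + 1 / (q : ℝ)) / (n : ℝ) ^ ((q : ℝ) + 1 / (q : ℝ)))
          ((e : ℝ) ^ (1 / ((q : ℝ) + 1))) ≤ ((k ^ 2 * d ^ (q - 1) : ℕ) : ℝ) := by
  have hq0 : (0 : ℝ) < q := by exact_mod_cast hq
  have hn0 : (0 : ℝ) < n := by exact_mod_cast hn
  have hn1 : (1 : ℝ) ≤ n := by exact_mod_cast hn
  have hR1 : (1 : ℝ) ≤ R := by exact_mod_cast hR
  have hR0 : (0 : ℝ) < R := by linarith
  have he1 : (1 : ℝ) ≤ e := by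
    refine le_trans ?_ hlow
    exact one_le_mul_of_one_le_of_one_le hR1 (one_le_pow₀ hn1)
  have he0 : (0 : ℝ) < e := by linarith
  have hupR : (e : ℝ) ≤ (n : ℝ) ^ (q + 1) := by exact_mod_cast hup
  -- X = n^r / e
  set X : ℝ := (n : ℝ) ^ (q + 1) / e with hX
  have hX1 : 1 ≤ X := by rw [hX, le_div_iff₀ he0, one_mul]; exact hupR
  have hX0 : 0 < X := by linarith
  have heX : (e : ℝ) * X = (n : ℝ) ^ (q + 1) := by rw [hX]; field_simp
  set W : ℝ := X ^ (1 / (q : ℝ)) with hW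
  have hW1 : 1 ≤ W := Real.one_le_rpow hX1 (by positivity)
  have hW0 : 0 < W := by linarith
  have hWq : W ^ q = X := by
    rw [hW, ← Real.rpow_natCast, ← Real.rpow_mul hX0.le, one_div,
      inv_mul_cancel₀ hq0.ne', Real.rpow_one]
  set d : ℕ := ⌊W⌋₊ with hd
  have hd1 : 1 ≤ d := by rw [hd, Nat.one_le_floor_iff]; exact hW1
  have hdW : (d : ℝ) ≤ W := Nat.floor_le hW0.le
  have hd1' : (1 : ℝ) ≤ d := by exact_mod_cast hd1
  have hdW2 : W ≤ 2 * d := by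
    have := Nat.lt_floor_add_one W
    linarith
  set D : ℝ := W ^ (q - 1) with hD
  have hD1 : 1 ≤ D := one_le_pow₀ hW1
  have hD0 : 0 < D := by linarith
  -- main size fact
  have hDr : (R : ℝ) * D ^ (q + 1) ≤ e := by
    have h1 : D ^ (q + 1) * X ≤ X ^ (q + 1) := by
      rw [hD, ← hWq, ← pow_mul, ← pow_add, ← pow_mul]
      apply pow_le_pow_right₀ hW1
      obtain ⟨p, rfl⟩ : ∃ p, q = p + 1 := ⟨q - 1, by omega⟩
      simp only [Nat.add_sub_cancel]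
      nlinarith
    have h2 : (R : ℝ) * X ≤ n := by
      have h3 : (R : ℝ) * X * e ≤ n * e := by
        calc (R : ℝ) * X * e = R * (e * X) := by ring
          _ = R * (n : ℝ) ^ (q + 1) := by rw [heX]
          _ = n * (R * (n : ℝ) ^ q) := by ring
          _ ≤ n * e := by gcongr
      exact le_of_mul_le_mul_right h3 he0
    have h3 : (R : ℝ) * X ^ (q + 1) ≤ (n : ℝ) ^ (q + 1) := by
      calc (R : ℝ) * X ^ (q + 1) ≤ (R : ℝ) ^ (q + 1) * X ^ (q + 1) := by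
            gcongr
            exact le_self_pow₀ hR1 (by omega)
        _ = (R * X) ^ (q + 1) := by rw [mul_pow]
        _ ≤ (n : ℝ) ^ (q + 1) := pow_le_pow_left₀ (by positivity) h2 _
    have h4 : ((R : ℝ) * D ^ (q + 1)) * X ≤ e * X := by
      calc ((R : ℝ) * D ^ (q + 1)) * X = R * (D ^ (q + 1) * X) := by ring
        _ ≤ R * X ^ (q + 1) := by gcongr
        _ ≤ (n : ℝ) ^ (q + 1) := h3
        _ = e * X := heX.symm
    exact le_of_mul_le_mul_right h4 hX0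
  set Y : ℝ := ((e : ℝ) / R) ^ (1 / ((q : ℝ) + 1)) with hY
  have hY0 : 0 < Y := by positivity
  have hYpow : Y ^ (q + 1) = (e : ℝ) / R := by
    rw [hY, ← Real.rpow_natCast, ← Real.rpow_mul (by positivity)]
    push_cast
    rw [one_div, inv_mul_cancel₀ (by positivity), Real.rpow_one]
  have hDY : D ≤ Y := by
    have h1 : D ^ (q + 1) ≤ Y ^ (q + 1) := by
      rw [hYpow, le_div_iff₀ hR0, mul_comm]; exact hDr
    exact le_of_pow_le_pow_left₀ (by omega) hY0.le h1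
  set a1 : ℝ := e / (R * (n : ℝ) ^ q) with ha1
  set a2 : ℝ := √(Y / D) with ha2
  have ha11 : 1 ≤ a1 := by rw [ha1, le_div_iff₀ (by positivity), one_mul]; exact hlow
  have ha21 : 1 ≤ a2 := by
    rw [ha2, Real.one_le_sqrt, le_div_iff₀ hD0, one_mul]; exact hDY
  have ha2sq : a2 ^ 2 = Y / D := Real.sq_sqrt (by positivity)
  set k : ℕ := ⌊min a1 a2⌋₊ with hk
  have hmin1 : 1 ≤ min a1 a2 := le_min ha11 ha21
  have hk1 : 1 ≤ k := by rw [hk, Nat.one_le_floor_iff]; exact hmin1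
  have hkle : (k : ℝ) ≤ min a1 a2 := Nat.floor_le (by linarith)
  have hk1' : (1 : ℝ) ≤ k := by exact_mod_cast hk1
  have hk2 : min a1 a2 ≤ 2 * k := by
    have := Nat.lt_floor_add_one (min a1 a2)
    linarith
  refine ⟨k, d, hk1, hd1, ?_, ?_, ?_, ?_⟩
  · have h1 : (R : ℝ) * (k * (n : ℝ) ^ q) ≤ e := by
      have h2 : (k : ℝ) ≤ e / (R * (n : ℝ) ^ q) := hkle.trans (min_le_left _ _)
      rw [le_div_iff₀ (by positivity)] at h2
      linarith
    exact_mod_cast h1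
  · have h1 : (d : ℝ) ^ q * e ≤ (n : ℝ) ^ (q + 1) := by
      rw [← heX, mul_comm (e : ℝ) X, ← hWq]
      gcongr
    exact_mod_cast h1
  · have h1 : (k : ℝ) ^ 2 * (d : ℝ) ^ (q - 1) ≤ Y := by
      calc (k : ℝ) ^ 2 * (d : ℝ) ^ (q - 1) ≤ a2 ^ 2 * D := by
            have h2 : (k : ℝ) ≤ a2 := hkle.trans (min_le_right _ _)
            have h3 : (d : ℝ) ^ (q - 1) ≤ D := pow_le_pow_left₀ (by linarith) hdW _
            gcongr
        _ = Y := by rw [ha2sq]; field_simp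
    have h2 : (R : ℝ) * ((k : ℝ) ^ 2 * (d : ℝ) ^ (q - 1)) ^ (q + 1) ≤ e := by
      calc (R : ℝ) * ((k : ℝ) ^ 2 * (d : ℝ) ^ (q - 1)) ^ (q + 1) ≤ R * Y ^ (q + 1) := by gcongr
        _ = e := by rw [hYpow]; field_simp
    exact_mod_cast h2
  · have hT1 : (e : ℝ) ^ (1 + 1 / (q : ℝ)) / (n : ℝ) ^ ((q : ℝ) + 1 / (q : ℝ))
        = (e / (n : ℝ) ^ q) ^ 2 * D := by
      have hDX : D * W = X := by
        rw [hD, ← pow_succ, ← hWq]
        congr 1
        omega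
      have hWn : W * (e : ℝ) ^ (1 / (q : ℝ)) = n * (n : ℝ) ^ (1 / (q : ℝ)) := by
        rw [hW, hX, Real.div_rpow (by positivity) he0.le]
        have h1 : ((n : ℝ) ^ (q + 1)) ^ (1 / (q : ℝ)) = n * (n : ℝ) ^ (1 / (q : ℝ)) := by
          rw [← Real.rpow_natCast, ← Real.rpow_mul hn0.le]
          nth_rw 2 [← Real.rpow_one (n : ℝ)]
          rw [← Real.rpow_add hn0]
          congr 1
          push_cast
          field_simp
        rw [h1]
        have : (e : ℝ) ^ (1 / (q : ℝ)) ≠ 0 := by positivity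
        field_simp
      rw [Real.rpow_add he0, Real.rpow_add hn0, Real.rpow_one, Real.rpow_natCast]
      set en := (e : ℝ) ^ (1 / (q : ℝ)) with hen
      set nn := (n : ℝ) ^ (1 / (q : ℝ)) with hnn
      have hen0 : 0 < en := by positivity
      have hnn0 : 0 < nn := by positivity
      rw [div_eq_iff (by positivity)]
      -- e * en = (e/n^q)^2 * D * (n^q * nn)
      have h2 : (e : ℝ) * en * W = (e / (n : ℝ) ^ q) ^ 2 * D * ((n : ℝ) ^ q * nn) * W := by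
        calc (e : ℝ) * en * W = e * (W * en) := by ring
          _ = e * (n * nn) := by rw [hWn]
          _ = (e / (n : ℝ) ^ q) ^ 2 * (D * W) * ((n : ℝ) ^ q * nn) := by
              rw [hDX, hX, pow_succ (n : ℝ) q]
              field_simp
          _ = _ := by ring
      exact mul_right_cancel₀ hW0.ne' h2
    have hY2 : (e : ℝ) ^ (1 / ((q : ℝ) + 1)) ≤ (R : ℝ) ^ 2 * Y := by
      rw [hY, Real.div_rpow he0.le hR0.le]
      have h1 : (R : ℝ) ^ (1 / ((q : ℝ) + 1)) ≤ (R : ℝ) ^ 2 := by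
        rw [← Real.rpow_natCast]
        apply Real.rpow_le_rpow_of_exponent_le hR1
        rw [div_le_iff₀ (by positivity)]
        push_cast
        linarith
      have h2 : (0 : ℝ) < (R : ℝ) ^ (1 / ((q : ℝ) + 1)) := by positivity
      rw [← mul_div_assoc, le_div_iff₀ h2]
      have h3 : (0 : ℝ) ≤ (e : ℝ) ^ (1 / ((q : ℝ) + 1)) := by positivity
      nlinarith
    rw [hT1]
    have h1 : (min a1 a2) ^ 2 * D ≤ 2 ^ (q + 1) * ((k : ℝ) ^ 2 * (d : ℝ) ^ (q - 1)) := by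
      have h2 : D ≤ 2 ^ (q - 1) * (d : ℝ) ^ (q - 1) := by
        rw [hD, ← mul_pow]
        exact pow_le_pow_left₀ hW0.le hdW2 _
      calc (min a1 a2) ^ 2 * D ≤ (2 * k) ^ 2 * (2 ^ (q - 1) * (d : ℝ) ^ (q - 1)) := by
            gcongr
        _ = 2 ^ (q - 1 + 2) * ((k : ℝ) ^ 2 * (d : ℝ) ^ (q - 1)) := by
            rw [pow_add]; ring
        _ = _ := by
            congr 2
            omega
    have h3 : min ((e / (n : ℝ) ^ q) ^ 2 * D) ((e : ℝ) ^ (1 / ((q : ℝ) + 1)))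
        ≤ (R : ℝ) ^ 2 * ((min a1 a2) ^ 2 * D) := by
      rcases min_choice a1 a2 with h | h
      · rw [h]
        refine (min_le_left _ _).trans (le_of_eq ?_)
        rw [ha1]
        field_simp
      · rw [h]
        refine (min_le_right _ _).trans ?_
        rw [ha2sq]
        refine hY2.trans (le_of_eq ?_)
        field_simp
    have h4 : min ((e / (n : ℝ) ^ q) ^ 2 * D) ((e : ℝ) ^ (1 / ((q : ℝ) + 1)))
        ≤ (R : ℝ) ^ 2 * (2 ^ (q + 1) * ((k : ℝ) ^ 2 * (d : ℝ) ^ (q - 1))) := by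
      refine h3.trans ?_
      gcongr
    rw [one_div, inv_mul_le_iff₀ (by positivity)]
    refine h4.trans (le_of_eq ?_)
    push_cast
    ring

/-- The frozen statement follows from a combinatorial lower bound. -/
theorem final
    (hlow : ∀ r : ℕ, 2 ≤ r → ∃ R : ℕ, 1 ≤ R ∧ ∀ n e k d : ℕ, 1 ≤ k → 1 ≤ d →
      R * (k * n ^ (r - 1)) ≤ e → d ^ (r - 1) * e ≤ n ^ r →
      R * (k ^ 2 * d ^ (r - 2)) ^ r ≤ e → e < n ^ r → e ≤ n.choose r →
      ∃ H : Finset (Finset (Fin n)), (∀ h ∈ H, h.card = r) ∧ H.card = k ^ 2 * d ^ (r - 2) ∧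
        ∀ G : Finset (Finset (Fin n)), (∀ g ∈ G, g.card = r) → G.card = e →
          ∃ φ : Fin n ↪ Fin n, ∀ h ∈ H, h.map φ ∈ G) :
    ∀ r : ℕ, 2 ≤ r → ∀ ε : ℝ, 0 < ε →
      ∃ c C K : ℝ, 0 < c ∧ 0 < C ∧ ∃ N : ℕ, ∀ n e : ℕ, N ≤ n →
        K * (n : ℝ) ^ (r - 1) ≤ (e : ℝ) → (e : ℝ) ≤ (n : ℝ) ^ ((r : ℝ) - ε) →
        (∃ H : Finset (Finset (Fin n)), (∀ h ∈ H, h.card = r) ∧
            c * min ((e : ℝ) ^ ((r : ℝ) / ((r : ℝ) - 1)) /
                  (n : ℝ) ^ ((r : ℝ) - 1 + 1 / ((r : ℝ) - 1)))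
                ((e : ℝ) ^ (1 / (r : ℝ))) ≤ (H.card : ℝ) ∧
            ∀ G : Finset (Finset (Fin n)), (∀ g ∈ G, g.card = r) → G.card = e →
              ∃ φ : Fin n ↪ Fin n, ∀ h ∈ H, h.map φ ∈ G) ∧
        (∀ H : Finset (Finset (Fin n)), (∀ h ∈ H, h.card = r) →
            (∀ G : Finset (Finset (Fin n)), (∀ g ∈ G, g.card = r) → G.card = e →
              ∃ φ : Fin n ↪ Fin n, ∀ h ∈ H, h.map φ ∈ G) →
            (H.card : ℝ) ≤ C * min ((e : ℝ) ^ ((r : ℝ) / ((r : ℝ) - 1)) /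
                  (n : ℝ) ^ ((r : ℝ) - 1 + 1 / ((r : ℝ) - 1)))
                ((e : ℝ) ^ (1 / (r : ℝ)))) := by
  intro r hr ε hε
  obtain ⟨C, hC, N1, hup⟩ := upper r hr ε hε
  obtain ⟨R, hR, hlowR⟩ := hlow r hr
  obtain ⟨q, rfl⟩ : ∃ q, r = q + 1 := ⟨r - 1, by omega⟩
  have hq : 1 ≤ q := by omega
  have hq0 : (0 : ℝ) < q := by exact_mod_cast hq
  obtain ⟨N2, hN2⟩ := eventually_le_choose q ε hε
  have hR1 : (1 : ℝ) ≤ R := by exact_mod_cast hR
  have hR0 : (0 : ℝ) < R := by linarith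
  refine ⟨1 / ((R : ℝ) ^ 2 * 2 ^ (q + 1)), C, R, by positivity, hC, N1 + N2 + 2, ?_⟩
  intro n e hn hK hupe
  have hn1' : (1 : ℝ) < n := by
    have : 1 < n := by omega
    exact_mod_cast this
  have hn0 : (0 : ℝ) < n := by linarith
  refine ⟨?_, ?_⟩
  · simp only [Nat.add_sub_cancel] at hK
    have e1 : (((q + 1 : ℕ) : ℝ)) - 1 = q := by push_cast; ring
    have e2 : (((q + 1 : ℕ) : ℝ)) / q = 1 + 1 / (q : ℝ) := by
      push_cast; field_simp
    have e3 : (((q + 1 : ℕ) : ℝ)) = (q : ℝ) + 1 := by push_cast; ring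
    have hupe' : (e : ℝ) ≤ (n : ℝ) ^ ((q : ℝ) + 1 - ε) := by rw [e3] at hupe; exact hupe
    have hlt : e < n ^ (q + 1) := by
      have h1 : (e : ℝ) < (n : ℝ) ^ (((q + 1 : ℕ) : ℝ)) := by
        refine lt_of_le_of_lt hupe ?_
        apply Real.rpow_lt_rpow_of_exponent_lt hn1'
        linarith
      rw [Real.rpow_natCast] at h1
      exact_mod_cast h1
    obtain ⟨k, d, hk, hd, h1, h2, h3, h4⟩ := exists_params q hq R hR n e (by omega) hK hlt.le
    obtain ⟨H, hH1, hH2, hH3⟩ := hlowR n e k d hk hd (by simpa using h1) (by simpa using h2)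
      (by simpa using h3) hlt (hN2 n e (by omega) hupe')
    refine ⟨H, hH1, ?_, hH3⟩
    rw [e1, e2, e3, hH2]
    simpa using h4
  · refine hup n e (by omega) ?_ hupe
    refine le_trans ?_ hK
    exact le_mul_of_one_le_left (by positivity) hR1

end Helper14.Unav
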