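import Mathlib

/-!
Combinatorial half of the upper bound on `un_r(n,e)`.
-/

namespace Helper14.Unav

open Finset

variable {n r e : ℕ}

/-- `H` is contained in every `r`-graph on `Fin n` with `e` edges. -/
def Unavoidable (n r e : ℕ) (H : Finset (Finset (Fin n))) : Prop :=
  ∀ G : Finset (Finset (Fin n)), (∀ g ∈ G, g.card = r) → G.card = e →
    ∃ φ : Fin n ↪ Fin n, ∀ h ∈ H, h.map φ ∈ G

/-- Vertices that lie in some edge. -/
def supp (H : Finset (Finset (Fin n))) : Finset (Fin n) := H.biUnion id

theorem mem_supp {H : Finset (Finset (Fin n))} {u : Fin n} :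
    u ∈ supp H ↔ ∃ h ∈ H, u ∈ h := by
  simp [supp]

theorem Unavoidable.host {H : Finset (Finset (Fin n))} (hH : Unavoidable n r e H)
    {F : Finset (Finset (Fin n))} (hF : ∀ g ∈ F, g.card = r) (he : e ≤ F.card) :
    ∃ φ : Fin n ↪ Fin n, ∀ h ∈ H, h.map φ ∈ F := by
  obtain ⟨G, hGF, hG⟩ := Finset.exists_subset_card_eq he
  obtain ⟨φ, hφ⟩ := hH G (fun g hg => hF g (hGF hg)) hG
  exact ⟨φ, fun h hh => hGF (hφ h hh)⟩

/-- Clique bound. -/
theorem Unavoidable.card_supp_le_clique {H : Finset (Finset (Fin n))}
    (hH : Unavoidable n r e H) {s : ℕ} (hs : e ≤ s.choose r) : (supp H).card ≤ s := by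
  rcases le_or_gt n s with h | h
  · calc (supp H).card ≤ (Finset.univ : Finset (Fin n)).card := Finset.card_le_univ _
      _ = n := by simp
      _ ≤ s := h
  · obtain ⟨S, -, hS⟩ := Finset.exists_subset_card_eq
      (s := (Finset.univ : Finset (Fin n))) (n := s) (by simp; omega)
    obtain ⟨φ, hφ⟩ := hH.host (F := S.powersetCard r)
      (fun g hg => (Finset.mem_powersetCard.1 hg).2) (by rw [Finset.card_powersetCard, hS]; exact hs)
    have : (supp H).map φ ⊆ S := by
      intro x hx
      obtain ⟨u, hu, rfl⟩ := Finset.mem_map.1 hx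
      obtain ⟨h, hh, huh⟩ := mem_supp.1 hu
      exact (Finset.mem_powersetCard.1 (hφ h hh)).1 (Finset.mem_map_of_mem _ huh)
    calc (supp H).card = ((supp H).map φ).card := by simp
      _ ≤ S.card := Finset.card_le_card this
      _ = s := hS

/-- Cover bound. -/
theorem Unavoidable.exists_cover {H : Finset (Finset (Fin n))} (hr : 1 ≤ r)
    (hH : Unavoidable n r e H) {s : ℕ} (hsn : s ≤ n)
    (hs : e ≤ s * (n - s).choose (r - 1)) :
    ∃ T : Finset (Fin n), T.card ≤ s ∧ ∀ h ∈ H, ∃ t ∈ T, t ∈ h := by
  obtain ⟨S, -, hS⟩ := Finset.exists_subset_card_eq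
      (s := (Finset.univ : Finset (Fin n))) (n := s) (by simp; omega)
  set F : Finset (Finset (Fin n)) :=
    (S ×ˢ (Sᶜ).powersetCard (r - 1)).image (fun p => insert p.1 p.2) with hFdef
  have hmem : ∀ g ∈ F, g.card = r ∧ ∃ x ∈ S, x ∈ g := by
    intro g hg
    obtain ⟨⟨x, A⟩, hp, rfl⟩ := Finset.mem_image.1 hg
    obtain ⟨hx, hA⟩ := Finset.mem_product.1 hp
    obtain ⟨hA1, hA2⟩ := Finset.mem_powersetCard.1 hA
    have hxA : x ∉ A := fun h => (Finset.mem_compl.1 (hA1 h)) hx
    refine ⟨?_, x, hx, Finset.mem_insert_self _ _⟩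
    rw [Finset.card_insert_of_notMem hxA]
    simp only at hA2
    omega
  have hcard : F.card = s * (n - s).choose (r - 1) := by
    rw [hFdef, Finset.card_image_of_injOn, Finset.card_product, hS, Finset.card_powersetCard,
      Finset.card_compl, hS, Fintype.card_fin]
    rintro ⟨x, A⟩ hp ⟨y, B⟩ hq heq
    obtain ⟨hx, hA⟩ := Finset.mem_product.1 hp
    obtain ⟨hy, hB⟩ := Finset.mem_product.1 hq
    obtain ⟨hA1, hA2⟩ := Finset.mem_powersetCard.1 hA
    obtain ⟨hB1, hB2⟩ := Finset.mem_powersetCard.1 hB
    simp only at hx hy hA1 hB1 heq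
    have hAS : ∀ z ∈ A, z ∉ S := fun z hz => Finset.mem_compl.1 (hA1 hz)
    have hBS : ∀ z ∈ B, z ∉ S := fun z hz => Finset.mem_compl.1 (hB1 hz)
    have hxy : x = y := by
      have : x ∈ insert y B := heq ▸ Finset.mem_insert_self x A
      rcases Finset.mem_insert.1 this with h | h
      · exact h
      · exact absurd hx (hBS x h)
    subst hxy
    have hAB : A = B := by
      have hxA : x ∉ A := fun h => hAS x h hx
      have hxB : x ∉ B := fun h => hBS x h hx
      have := congrArg (fun Z => Z.erase x) heq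
      simpa [Finset.erase_insert hxA, Finset.erase_insert hxB] using this
    rw [hAB]
  obtain ⟨φ, hφ⟩ := hH.host (F := F) (fun g hg => (hmem g hg).1) (by rw [hcard]; exact hs)
  refine ⟨Finset.univ.filter (fun u => φ u ∈ S), ?_, ?_⟩
  · calc (Finset.univ.filter (fun u => φ u ∈ S)).card
        = ((Finset.univ.filter (fun u => φ u ∈ S)).map φ).card := by simp
      _ ≤ S.card := by
          apply Finset.card_le_card
          intro x hx
          obtain ⟨u, hu, rfl⟩ := Finset.mem_map.1 hx
          exact (Finset.mem_filter.1 hu).2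
      _ = s := hS
  · intro h hh
    obtain ⟨-, x, hxS, hx⟩ := hmem _ (hφ h hh)
    obtain ⟨u, hu, rfl⟩ := Finset.mem_map.1 hx
    exact ⟨u, by simpa using hxS, hu⟩

/-- The `k`-th block of size `t`. -/
def block (n t k : ℕ) : Finset (Fin n) := Finset.univ.filter (fun x => (x : ℕ) / t = k)

theorem card_block_le {t k : ℕ} (ht : 0 < t) : (block n t k).card ≤ t := by
  have h1 : ((block n t k).map Fin.valEmbedding) ⊆ Finset.Ico (k * t) (k * t + t) := by
    intro x hx
    obtain ⟨u, hu, rfl⟩ := Finset.mem_map.1 hx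
    have hu' : (u : ℕ) / t = k := (Finset.mem_filter.1 hu).2
    rw [Finset.mem_Ico]
    have := Nat.div_add_mod (u : ℕ) t
    have h3 := Nat.mod_lt (u : ℕ) ht
    rw [hu'] at this
    simp only [Fin.valEmbedding_apply]
    rw [mul_comm] at this
    constructor <;> omega
  calc (block n t k).card = ((block n t k).map Fin.valEmbedding).card := by simp
    _ ≤ (Finset.Ico (k * t) (k * t + t)).card := Finset.card_le_card h1
    _ = t := by simp

theorem card_block {t k : ℕ} (ht : 0 < t) (hk : k < n / t) : (block n t k).card = t := by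
  apply le_antisymm (card_block_le ht)
  have hkn : k * t + t ≤ n := by
    have : (k + 1) * t ≤ n := (Nat.le_div_iff_mul_le ht).1 hk
    nlinarith
  have h1 : (Finset.Ico (k * t) (k * t + t)) ⊆ ((block n t k).map Fin.valEmbedding) := by
    intro x hx
    rw [Finset.mem_Ico] at hx
    refine Finset.mem_map.2 ⟨⟨x, by omega⟩, ?_, rfl⟩
    rw [block, Finset.mem_filter]
    refine ⟨Finset.mem_univ _, ?_⟩
    simp only
    rw [Nat.div_eq_iff ht]
    constructor
    · nlinarith [hx.1]
    · have := hx.2; omega
  calc t = (Finset.Ico (k * t) (k * t + t)).card := by simp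
    _ ≤ ((block n t k).map Fin.valEmbedding).card := Finset.card_le_card h1
    _ = (block n t k).card := by simp

/-- Block bound. -/
theorem Unavoidable.card_supp_le_blocks {H : Finset (Finset (Fin n))} (hr : 1 ≤ r)
    (hH : Unavoidable n r e H) {t : ℕ} (ht : 0 < t)
    (he : e ≤ (n / t) * t.choose r) {T : Finset (Fin n)}
    (hT : ∀ h ∈ H, ∃ x ∈ T, x ∈ h) : (supp H).card ≤ T.card * t := by
  set F : Finset (Finset (Fin n)) :=
    (Finset.range (n / t)).biUnion (fun k => (block n t k).powersetCard r) with hFdef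
  have hcard : F.card = (n / t) * t.choose r := by
    rw [hFdef, Finset.card_biUnion]
    · rw [Finset.sum_congr rfl (g := fun _ => t.choose r)]
      · simp
      · intro k hk
        rw [Finset.card_powersetCard, card_block ht (Finset.mem_range.1 hk)]
    · intro i hi j hj hij
      rw [Function.onFun, Finset.disjoint_left]
      intro A hA hB
      obtain ⟨hA1, hA2⟩ := Finset.mem_powersetCard.1 hA
      obtain ⟨hB1, hB2⟩ := Finset.mem_powersetCard.1 hB
      have : A.Nonempty := by
        rw [← Finset.card_pos]; omega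
      obtain ⟨x, hx⟩ := this
      have h1 := (Finset.mem_filter.1 (hA1 hx)).2
      have h2 := (Finset.mem_filter.1 (hB1 hx)).2
      exact hij (h1.symm.trans h2)
  obtain ⟨φ, hφ⟩ := hH.host (F := F) (fun g hg => by
    obtain ⟨k, -, hk⟩ := Finset.mem_biUnion.1 hg
    exact (Finset.mem_powersetCard.1 hk).2) (by rw [hcard]; exact he)
  have hsub : (supp H).map φ ⊆ T.biUnion (fun x => block n t ((φ x : ℕ) / t)) := by
    intro y hy
    obtain ⟨u, hu, rfl⟩ := Finset.mem_map.1 hy
    obtain ⟨h, hh, huh⟩ := mem_supp.1 hu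
    obtain ⟨x, hxT, hxh⟩ := hT h hh
    obtain ⟨k, -, hk⟩ := Finset.mem_biUnion.1 (hφ h hh)
    have h1 := (Finset.mem_powersetCard.1 hk).1 (Finset.mem_map_of_mem φ huh)
    have h2 := (Finset.mem_powersetCard.1 hk).1 (Finset.mem_map_of_mem φ hxh)
    have h1' := (Finset.mem_filter.1 h1).2
    have h2' := (Finset.mem_filter.1 h2).2
    refine Finset.mem_biUnion.2 ⟨x, hxT, ?_⟩
    rw [block, Finset.mem_filter]
    exact ⟨Finset.mem_univ _, h1'.trans h2'.symm⟩
  calc (supp H).card = ((supp H).map φ).card := by simp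
    _ ≤ (T.biUnion (fun x => block n t ((φ x : ℕ) / t))).card := Finset.card_le_card hsub
    _ ≤ ∑ x ∈ T, (block n t ((φ x : ℕ) / t)).card := Finset.card_biUnion_le
    _ ≤ ∑ _x ∈ T, t := Finset.sum_le_sum (fun x _ => card_block_le ht)
    _ = T.card * t := by simp

/-- The images of `H` under embeddings. -/
noncomputable def images (H : Finset (Finset (Fin n))) : Finset (Finset (Finset (Fin n))) :=
  (Finset.univ : Finset (Fin n ↪ Fin n)).image (fun φ => H.image (fun h => h.map φ))

theorem card_images_le (H : Finset (Finset (Fin n))) :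
    (images H).card ≤ n ^ (supp H).card := by
  classical
  have hch : ∀ I : images H, ∃ φ : Fin n ↪ Fin n, H.image (fun h => h.map φ) = I.1 := by
    rintro ⟨I, hI⟩
    obtain ⟨φ, -, hφ⟩ := Finset.mem_image.1 hI
    exact ⟨φ, hφ⟩
  choose ψ hψ using hch
  have hinj : Function.Injective
      (fun I : images H => (fun u : supp H => ψ I u.1)) := by
    intro I J hIJ
    apply Subtype.ext
    rw [← hψ I, ← hψ J]
    apply Finset.image_congr
    intro h hh
    simp only
    ext y
    simp only [Finset.mem_map]
    constructor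
    · rintro ⟨u, hu, rfl⟩
      exact ⟨u, hu, (congrFun hIJ ⟨u, mem_supp.2 ⟨h, hh, hu⟩⟩).symm⟩
    · rintro ⟨u, hu, rfl⟩
      exact ⟨u, hu, (congrFun hIJ ⟨u, mem_supp.2 ⟨h, hh, hu⟩⟩)⟩
  have := Fintype.card_le_of_injective _ hinj
  simpa using this

theorem choose_ratio {M e : ℕ} (heM : e ≤ M) (m : ℕ) :
    e.choose m * M ^ m ≤ M.choose m * e ^ m := by
  have key : e.descFactorial m * M ^ m ≤ M.descFactorial m * e ^ m := by
    induction m with
    | zero => simp
    | succ m ih =>
      rw [Nat.descFactorial_succ, Nat.descFactorial_succ, pow_succ, pow_succ]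
      have h2 : (e - m) * M ≤ (M - m) * e := by
        rcases le_total e m with h | h
        · simp [Nat.sub_eq_zero_of_le h]
        · zify [h, h.trans heM]
          nlinarith
      calc (e - m) * e.descFactorial m * (M ^ m * M)
          = ((e - m) * M) * (e.descFactorial m * M ^ m) := by ring
        _ ≤ ((M - m) * e) * (M.descFactorial m * e ^ m) := Nat.mul_le_mul h2 ih
        _ = (M - m) * M.descFactorial m * (e ^ m * e) := by ring
  rw [Nat.descFactorial_eq_factorial_mul_choose, Nat.descFactorial_eq_factorial_mul_choose,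
    mul_assoc, mul_assoc] at key
  exact Nat.le_of_mul_le_mul_left key (Nat.factorial_pos m)

/-- Counting bound. -/
theorem Unavoidable.counting {H : Finset (Finset (Fin n))} (hH' : ∀ h ∈ H, h.card = r)
    (hH : Unavoidable n r e H) (heM : e ≤ n.choose r) :
    (n.choose r) ^ H.card ≤ n ^ (supp H).card * e ^ H.card := by
  classical
  set M := n.choose r with hM
  set U : Finset (Finset (Fin n)) := (Finset.univ : Finset (Fin n)).powersetCard r with hU
  have hUcard : U.card = M := by rw [hU, Finset.card_powersetCard]; simp [hM]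
  have himg : ∀ φ : Fin n ↪ Fin n, (H.image (fun h => h.map φ)).card = H.card := by
    intro φ
    apply Finset.card_image_of_injective
    exact Finset.map_injective φ
  have hme : H.card ≤ e := by
    obtain ⟨G, hGU, hG⟩ := Finset.exists_subset_card_eq (s := U) (n := e) (by rw [hUcard]; exact heM)
    obtain ⟨φ, hφ⟩ := hH G (fun g hg => (Finset.mem_powersetCard.1 (hGU hg)).2) hG
    rw [← himg φ, ← hG]
    apply Finset.card_le_card
    intro x hx
    obtain ⟨h, hh, rfl⟩ := Finset.mem_image.1 hx
    exact hφ h hh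
  set m := H.card with hm
  -- families containing a given image
  have hcount : ∀ I ∈ images H,
      ((U.powersetCard e).filter (fun G => I ⊆ G)).card ≤ (M - m).choose (e - m) := by
    intro I hI
    obtain ⟨φ, -, rfl⟩ := Finset.mem_image.1 hI
    set I := H.image (fun h => h.map φ) with hIdef
    have hIU : I ⊆ U := by
      intro x hx
      obtain ⟨h, hh, rfl⟩ := Finset.mem_image.1 hx
      rw [hU, Finset.mem_powersetCard]
      exact ⟨Finset.subset_univ _, by rw [Finset.card_map]; exact hH' h hh⟩
    have hIc : I.card = m := himg φ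
    have : ((U.powersetCard e).filter (fun G => I ⊆ G)).card
        ≤ ((U \ I).powersetCard (e - m)).card := by
      apply Finset.card_le_card_of_injOn (fun G => G \ I)
      · intro G hG
        obtain ⟨hG1, hG2⟩ := Finset.mem_filter.1 hG
        obtain ⟨hG3, hG4⟩ := Finset.mem_powersetCard.1 hG1
        rw [Finset.mem_coe, Finset.mem_powersetCard]
        refine ⟨Finset.sdiff_subset_sdiff hG3 (le_refl _), ?_⟩
        rw [Finset.card_sdiff_of_subset hG2, hG4, hIc]
      · intro G hG G' hG' heq
        obtain ⟨-, hG2⟩ := Finset.mem_filter.1 hG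
        obtain ⟨-, hG2'⟩ := Finset.mem_filter.1 hG'
        simp only at heq
        rw [← Finset.sdiff_union_of_subset hG2, ← Finset.sdiff_union_of_subset hG2', heq]
    rw [Finset.card_powersetCard, Finset.card_sdiff_of_subset hIU, hUcard, hIc] at this
    exact this
  have hmain : M.choose e ≤ n ^ (supp H).card * (M - m).choose (e - m) := by
    have h1 : U.powersetCard e ⊆
        (images H).biUnion (fun I => (U.powersetCard e).filter (fun G => I ⊆ G)) := by
      intro G hG
      obtain ⟨hG1, hG2⟩ := Finset.mem_powersetCard.1 hG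
      obtain ⟨φ, hφ⟩ := hH G (fun g hg => (Finset.mem_powersetCard.1 (hG1 hg)).2) hG2
      refine Finset.mem_biUnion.2 ⟨H.image (fun h => h.map φ), ?_, ?_⟩
      · exact Finset.mem_image.2 ⟨φ, Finset.mem_univ _, rfl⟩
      · refine Finset.mem_filter.2 ⟨hG, ?_⟩
        intro x hx
        obtain ⟨h, hh, rfl⟩ := Finset.mem_image.1 hx
        exact hφ h hh
    calc M.choose e = (U.powersetCard e).card := by rw [Finset.card_powersetCard, hUcard]
      _ ≤ _ := Finset.card_le_card h1
      _ ≤ ∑ I ∈ images H, ((U.powersetCard e).filter (fun G => I ⊆ G)).card :=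
          Finset.card_biUnion_le
      _ ≤ ∑ _I ∈ images H, (M - m).choose (e - m) := Finset.sum_le_sum hcount
      _ = (images H).card * (M - m).choose (e - m) := by simp
      _ ≤ _ := Nat.mul_le_mul_right _ (card_images_le H)
  have h3 := Nat.choose_mul (n := M) (k := e) (s := m) hme
  have h4 := choose_ratio heM m
  have h5 : 0 < e.choose m := Nat.choose_pos hme
  have h6 : 0 < (M - m).choose (e - m) := Nat.choose_pos (by omega)
  have h7 : (e.choose m * (M - m).choose (e - m)) * M ^ m
      ≤ (e.choose m * (M - m).choose (e - m)) * (n ^ (supp H).card * e ^ m) := by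
    calc (e.choose m * (M - m).choose (e - m)) * M ^ m
        = (M - m).choose (e - m) * (e.choose m * M ^ m) := by ring
      _ ≤ (M - m).choose (e - m) * (M.choose m * e ^ m) := Nat.mul_le_mul_left _ h4
      _ = (M.choose m * (M - m).choose (e - m)) * e ^ m := by ring
      _ = (M.choose e * e.choose m) * e ^ m := by rw [h3]
      _ ≤ ((n ^ (supp H).card * (M - m).choose (e - m)) * e.choose m) * e ^ m :=
          Nat.mul_le_mul_right _ (Nat.mul_le_mul_right _ hmain)
      _ = _ := by ring
  exact Nat.le_of_mul_le_mul_left h7 (Nat.mul_pos h5 h6)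

end Helper14.Unav
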